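import Pool.Agent.L0h46.CV.Stm

/-!
# Summation over the second coordinate (module WB of helper46)
-/

set_option autoImplicit false

namespace Pool.Agent.L0h78.CV

open Finset Pool.Agent.L0h46.CV

theorem wb (h : S_WBA) : S_WB := by
  classical
  intro t d c ht hd hc M ε hε
  obtain ⟨K, hK, hA⟩ := h t d c ht hd hc M ε hε
  refine ⟨2 + 3 * K, by positivity, ?_⟩
  intro B hB k hk hkM E hE
  have hsplit := Finset.card_filter_add_card_filter_not (s := E) (p := fun x : ℤ × ℤ => x.2 = 0)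
  have h0 : (E.filter fun x : ℤ × ℤ => x.2 = 0).card ≤ 2 := by
    have hsub : (E.filter fun x : ℤ × ℤ => x.2 = 0) ⊆ {((1 : ℤ), (0 : ℤ)), ((-1 : ℤ), (0 : ℤ))} := by
      rintro ⟨a, b⟩ hx
      rw [Finset.mem_filter] at hx
      obtain ⟨hx1, hx2⟩ := hx
      have hx2' : b = 0 := hx2
      subst hx2'
      have h1 := (hE _ hx1).1
      have h2 : IsUnit a := by
        have h3 : IsCoprime a 0 := h1
        rwa [isCoprime_zero_right] at h3
      rcases Int.isUnit_iff.1 h2 with rfl | rfl <;> simp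
    exact (Finset.card_le_card hsub).trans Finset.card_le_two
  have hB0 : (0 : ℝ) ≤ B := by linarith
  have habs : ∀ x ∈ E, |(x.1 : ℝ)| ≤ B ∧ |(x.2 : ℝ)| ≤ B := by
    intro x hx
    have h1 := (hE x hx).2.1
    unfold Pool.Agent.L0h46.CV.ht at h1
    have h2 : (x.1.natAbs : ℝ) ≤ B := le_trans (by exact_mod_cast le_max_left _ _) h1
    have h3 : (x.2.natAbs : ℝ) ≤ B := le_trans (by exact_mod_cast le_max_right _ _) h1
    rw [Nat.cast_natAbs, Int.cast_abs] at h2 h3
    exact ⟨h2, h3⟩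
  have hfib : ∀ b : ℤ, b ≠ 0 → ((E.filter fun x : ℤ × ℤ => x.2 = b).card : ℝ) ≤
      K * B ^ ((1 : ℝ) / 2 + ε) := by
    intro b hb
    by_cases hne : (E.filter fun x : ℤ × ℤ => x.2 = b).Nonempty
    · obtain ⟨x0, hx0⟩ := hne
      rw [Finset.mem_filter] at hx0
      have hbB : |(b : ℝ)| ≤ B := by
        rw [← hx0.2]
        exact (habs _ hx0.1).2
      have hinj : Set.InjOn (Prod.fst : ℤ × ℤ → ℤ)
          (E.filter fun x : ℤ × ℤ => x.2 = b : Finset (ℤ × ℤ)) := by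
        rintro ⟨a1, b1⟩ h1 ⟨a2, b2⟩ h2 h3
        rw [Finset.mem_coe, Finset.mem_filter] at h1 h2
        have e1 : b1 = b := h1.2
        have e2 : b2 = b := h2.2
        have e3 : a1 = a2 := h3
        rw [e1, e2, e3]
      rw [← Finset.card_image_of_injOn hinj]
      refine hA B hB k b hk hkM hb hbB _ ?_
      intro a ha
      rw [Finset.mem_image] at ha
      obtain ⟨⟨a', b'⟩, h1, h2⟩ := ha
      rw [Finset.mem_filter] at h1
      have e1 : b' = b := h1.2
      have e2 : a' = a := h2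
      subst e1
      subst e2
      exact ⟨(habs _ h1.1).1, (hE _ h1.1).2.2⟩
    · rw [Finset.not_nonempty_iff_eq_empty] at hne
      rw [hne]
      simp only [Finset.card_empty, Nat.cast_zero]
      positivity
  have h1 : ((E.filter fun x : ℤ × ℤ => ¬ x.2 = 0).card : ℝ) ≤
      (3 * B) * (K * B ^ ((1 : ℝ) / 2 + ε)) := by
    have hmap : ∀ x ∈ (E.filter fun x : ℤ × ℤ => ¬ x.2 = 0),
        x.2 ∈ (Finset.Icc (-⌊B⌋) ⌊B⌋ : Finset ℤ) := by
      intro x hx
      rw [Finset.mem_filter] at hx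
      have h2 := (habs x hx.1).2
      rw [abs_le] at h2
      rw [Finset.mem_Icc]
      have h3 : x.2 ≤ ⌊B⌋ := Int.le_floor.2 h2.2
      have h4 : -x.2 ≤ ⌊B⌋ := Int.le_floor.2 (by push_cast; linarith [h2.1])
      exact ⟨by linarith, h3⟩
    rw [Finset.card_eq_sum_card_fiberwise hmap, Nat.cast_sum]
    have hle : ∀ b ∈ (Finset.Icc (-⌊B⌋) ⌊B⌋ : Finset ℤ),
        (((E.filter fun x : ℤ × ℤ => ¬ x.2 = 0).filter fun x : ℤ × ℤ => x.2 = b).card : ℝ) ≤
          K * B ^ ((1 : ℝ) / 2 + ε) := by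
      intro b _
      by_cases hb : b = 0
      · have he : ((E.filter fun x : ℤ × ℤ => ¬ x.2 = 0).filter fun x : ℤ × ℤ => x.2 = b) = ∅ := by
          rw [Finset.filter_eq_empty_iff]
          intro x hx h2
          rw [Finset.mem_filter] at hx
          exact hx.2 (by rw [h2, hb])
        rw [he]
        simp only [Finset.card_empty, Nat.cast_zero]
        positivity
      · refine le_trans ?_ (hfib b hb)
        have hs : ((E.filter fun x : ℤ × ℤ => ¬ x.2 = 0).filter fun x : ℤ × ℤ => x.2 = b) ⊆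
            (E.filter fun x : ℤ × ℤ => x.2 = b) := by
          intro x hx
          rw [Finset.mem_filter, Finset.mem_filter] at hx
          rw [Finset.mem_filter]
          exact ⟨hx.1.1, hx.2⟩
        exact_mod_cast Finset.card_le_card hs
    refine (Finset.sum_le_sum hle).trans ?_
    rw [Finset.sum_const, nsmul_eq_mul]
    refine mul_le_mul_of_nonneg_right ?_ (by positivity)
    rw [Int.card_Icc]
    have hf : 0 ≤ ⌊B⌋ := Int.floor_nonneg.2 hB0
    have h2 : ((⌊B⌋ + 1 - -⌊B⌋).toNat : ℝ) = 2 * (⌊B⌋ : ℝ) + 1 := by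
      have h3 : ((⌊B⌋ + 1 - -⌊B⌋).toNat : ℤ) = 2 * ⌊B⌋ + 1 := by
        rw [Int.toNat_of_nonneg (by linarith)]
        ring
      exact_mod_cast h3
    rw [h2]
    have h4 := Int.floor_le B
    linarith
  have h2 : (E.card : ℝ) = ((E.filter fun x : ℤ × ℤ => x.2 = 0).card : ℝ) +
      ((E.filter fun x : ℤ × ℤ => ¬ x.2 = 0).card : ℝ) := by
    rw [← hsplit]
    push_cast
    rfl
  have h3 : B * B ^ ((1 : ℝ) / 2 + ε) = B ^ ((3 : ℝ) / 2 + ε) := by
    have hp : (0 : ℝ) < B := by linarith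
    have e := Real.rpow_add hp 1 ((1 : ℝ) / 2 + ε)
    rw [Real.rpow_one] at e
    rw [← e]
    congr 1
    ring
  have h4 : (1 : ℝ) ≤ B ^ ((3 : ℝ) / 2 + ε) := Real.one_le_rpow hB (by positivity)
  have h5 : ((E.filter fun x : ℤ × ℤ => x.2 = 0).card : ℝ) ≤ 2 := by exact_mod_cast h0
  rw [h2]
  calc _ ≤ 2 + (3 * B) * (K * B ^ ((1 : ℝ) / 2 + ε)) := add_le_add h5 h1
    _ = 2 * 1 + 3 * K * (B * B ^ ((1 : ℝ) / 2 + ε)) := by ring
    _ ≤ 2 * B ^ ((3 : ℝ) / 2 + ε) + 3 * K * B ^ ((3 : ℝ) / 2 + ε) := by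
        rw [h3]
        linarith
    _ = _ := by ring

end Pool.Agent.L0h78.CV
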